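import Pool.Agent.Lib.MP_defcf3_al.BRP.Base

/-!
Module TOWER of project BR7: Kummer theory with Teichmueller characters.
-/

set_option autoImplicit false
set_option linter.unusedSectionVars false

namespace BRP.H62

open BR7

universe u

variable {ℓ : ℕ} [Fact ℓ.Prime] [Fact (Odd ℓ)]


/-! ### Congruences -/

omit [Fact ℓ.Prime] [Fact (Odd ℓ)] in
theorem pow_modEq {a b : ℕ} (h : a ≡ b [MOD ℓ]) (n : ℕ) : a ^ ℓ ^ n ≡ b ^ ℓ ^ n [MOD ℓ ^ (n + 1)] := by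
  have h1 : ((ℓ : ℕ) : ℤ) ∣ (b : ℤ) - a := (Nat.modEq_iff_dvd).1 h
  have h2 := dvd_sub_pow_of_dvd_sub h1 n
  rw [Nat.modEq_iff_dvd]
  push_cast
  exact_mod_cast h2

omit [Fact (Odd ℓ)] in
theorem fermat (a n : ℕ) : a ^ ℓ ^ n ≡ a [MOD ℓ] := by
  rw [← ZMod.natCast_eq_natCast_iff]
  push_cast
  exact ZMod.pow_card_pow _

omit [Fact (Odd ℓ)] in
theorem teich_succ (a n : ℕ) : a ^ ℓ ^ (n + 1) ≡ a ^ ℓ ^ n [MOD ℓ ^ (n + 1)] := by
  have h1 : a ^ ℓ ≡ a [MOD ℓ] := by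
    have := fermat (ℓ := ℓ) a 1
    rwa [pow_one] at this
  have h2 := pow_modEq h1 n
  rwa [← pow_mul, ← pow_succ'] at h2

/-! ### Identities in commutative groups -/

section Aux

variable {A : Type u} [CommGroup A]

theorem aux1 (x y z : A) : x * (y * z) = y * x * z := by
  rw [← mul_assoc, mul_comm x y]

theorem aux2 (x y : A) : x * y * x⁻¹ * y⁻¹ = 1 := by
  rw [mul_comm x y, mul_inv_cancel_right, mul_inv_cancel]

theorem aux3 {a b c d : A} (h : a * b⁻¹ = c * d⁻¹) : a * d = c * b := by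
  rw [mul_inv_eq_iff_eq_mul] at h
  rw [h, mul_right_comm, inv_mul_cancel_right]

end Aux

/-! ### The abstract averaging -/

section Avg

variable {G A : Type u} [Group G] [CommGroup A] [MulDistribMulAction G A]

/-- Elements fixed by the subgroup. -/
def fixG (A : Type u) [CommGroup A] [MulDistribMulAction G A] (H : Subgroup G) : Subgroup A where
  carrier := {a | ∀ h ∈ H, h • a = a}
  mul_mem' := by
    intro a b ha hb h hh
    rw [smul_mul', ha h hh, hb h hh]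
  one_mem' := fun h _ => smul_one h
  inv_mem' := by
    intro a ha h hh
    rw [smul_inv', ha h hh]

theorem mem_fixG {H : Subgroup G} {a : A} : a ∈ fixG A H ↔ ∀ h ∈ H, h • a = a := Iff.rfl

theorem smul_mem_fixG {H : Subgroup G} (hH : H.Normal) {a : A} (ha : a ∈ fixG A H) (g : G) :
    g • a ∈ fixG A H := by
  intro h hh
  have h1 : g⁻¹ * h * g ∈ H := by
    have := hH.conj_mem h hh g⁻¹
    rwa [inv_inv] at this
  have h2 := ha _ h1
  have h3 : h • g • a = g • ((g⁻¹ * h * g) • a) := by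
    rw [smul_smul, smul_smul]
    congr 1
    group
  rw [h3, h2]

/-- The N-th powers of the elements fixed by the subgroup. -/
def powG (A : Type u) [CommGroup A] [MulDistribMulAction G A] (H : Subgroup G) (N : ℕ) : Subgroup A :=
  (fixG A H).map (powMonoidHom N)

theorem mk_pow_eq {H : Subgroup G} {N : ℕ} {a : A} (ha : a ∈ fixG A H) {i j : ℕ} (h : i ≡ j [MOD N]) :
    (QuotientGroup.mk a : A ⧸ powG A H N) ^ i = (QuotientGroup.mk a : A ⧸ powG A H N) ^ j := by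
  apply pow_eq_pow_of_modEq h
  rw [← QuotientGroup.mk_pow, QuotientGroup.eq_one_iff]
  exact ⟨a, ha, rfl⟩

theorem exists_of_mk_eq {H : Subgroup G} {N : ℕ} {a b : A}
    (h : (QuotientGroup.mk a : A ⧸ powG A H N) = QuotientGroup.mk b) :
    ∃ v ∈ fixG A H, b = a * v ^ N := by
  rw [QuotientGroup.eq] at h
  obtain ⟨v, hv, e⟩ := h
  refine ⟨v, hv, ?_⟩
  have e' : v ^ N = a⁻¹ * b := e
  rw [e', mul_inv_cancel_left]

/-- The average. -/
noncomputable def avg (ℓ : ℕ) (H : Subgroup G) [Fintype (G ⧸ H)] (γ : G → ℕ) (b : A) (n : ℕ) : A :=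
  ∏ x : G ⧸ H, (Quotient.out x • b) ^ (γ (Quotient.out x)⁻¹ ^ ℓ ^ n)

variable {H : Subgroup G} [Fintype (G ⧸ H)] {γ : G → ℕ} {b : A}

theorem avg_mem (hH : H.Normal) (hb : b ∈ fixG A H) (n : ℕ) : avg ℓ H γ b n ∈ fixG A H :=
  Subgroup.prod_mem _ fun _ _ => Subgroup.pow_mem _ (smul_mem_fixG hH hb _) _

omit [Fintype (G ⧸ H)] in
theorem out_smul (hb : b ∈ fixG A H) (σ : G) (x : G ⧸ H) :
    σ • (Quotient.out x) • b = (Quotient.out (σ • x)) • b := by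
  have h1 : (QuotientGroup.mk (Quotient.out (σ • x)) : G ⧸ H) = QuotientGroup.mk (σ * Quotient.out x) := by
    rw [QuotientGroup.out_eq', ← smul_eq_mul, ← MulAction.Quotient.smul_mk, QuotientGroup.out_eq']
  rw [QuotientGroup.eq] at h1
  have h2 := hb _ h1
  rw [← smul_smul, inv_smul_eq_iff, ← smul_smul] at h2
  exact h2

theorem avg_smul (hH : H.Normal) (hb : b ∈ fixG A H) (h1 : ∀ h ∈ H, γ h ≡ 1 [MOD ℓ])
    (hmul : ∀ g h, γ (g * h) ≡ γ g * γ h [MOD ℓ]) (n : ℕ) (σ : G) :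
    (QuotientGroup.mk (σ • avg ℓ H γ b n) : A ⧸ powG A H (ℓ ^ (n + 1))) =
      QuotientGroup.mk (avg ℓ H γ b n ^ (γ σ ^ ℓ ^ n)) := by
  have e1 : σ • avg ℓ H γ b n =
      ∏ x : G ⧸ H, (Quotient.out (σ • x) • b) ^ (γ (Quotient.out x)⁻¹ ^ ℓ ^ n) := by
    rw [avg, Finset.smul_prod']
    refine Finset.prod_congr rfl fun x _ => ?_
    rw [smul_pow', out_smul hb]
  have e2 : ∀ x : G ⧸ H, γ (Quotient.out x)⁻¹ ^ ℓ ^ n ≡
      γ (Quotient.out (σ • x))⁻¹ ^ ℓ ^ n * γ σ ^ ℓ ^ n [MOD ℓ ^ (n + 1)] := by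
    intro x
    rw [← mul_pow]
    apply pow_modEq
    have h2 : (QuotientGroup.mk (Quotient.out (σ • x)) : G ⧸ H) =
        QuotientGroup.mk (σ * Quotient.out x) := by
      rw [QuotientGroup.out_eq', ← smul_eq_mul, ← MulAction.Quotient.smul_mk, QuotientGroup.out_eq']
    rw [QuotientGroup.eq] at h2
    set h := (Quotient.out (σ • x))⁻¹ * (σ * Quotient.out x) with hdef
    have h3 : (Quotient.out x)⁻¹ = h⁻¹ * ((Quotient.out (σ • x))⁻¹ * σ) := by
      rw [hdef]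
      group
    rw [h3]
    have h4 := hmul h⁻¹ ((Quotient.out (σ • x))⁻¹ * σ)
    have h5 := (h1 _ (H.inv_mem h2)).mul_right (γ ((Quotient.out (σ • x))⁻¹ * σ))
    rw [one_mul] at h5
    exact (h4.trans h5).trans (hmul _ _)
  rw [e1, QuotientGroup.mk_prod]
  have e3 : ∀ x : G ⧸ H,
      (QuotientGroup.mk ((Quotient.out (σ • x) • b) ^ (γ (Quotient.out x)⁻¹ ^ ℓ ^ n)) :
        A ⧸ powG A H (ℓ ^ (n + 1))) =
      QuotientGroup.mk (((Quotient.out (σ • x) • b) ^ (γ (Quotient.out (σ • x))⁻¹ ^ ℓ ^ n)) ^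
        (γ σ ^ ℓ ^ n)) := by
    intro x
    rw [← pow_mul, QuotientGroup.mk_pow, QuotientGroup.mk_pow]
    exact mk_pow_eq (smul_mem_fixG hH hb _) (e2 x)
  rw [Finset.prod_congr rfl fun x _ => e3 x]
  rw [← QuotientGroup.mk_prod]
  congr 1
  rw [avg, ← Finset.prod_pow]
  exact Fintype.prod_equiv (MulAction.toPerm σ) _ _ (fun x => rfl)

theorem avg_succ (hH : H.Normal) (hb : b ∈ fixG A H) (n : ℕ) :
    (QuotientGroup.mk (avg ℓ H γ b n) : A ⧸ powG A H (ℓ ^ (n + 1))) =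
      QuotientGroup.mk (avg ℓ H γ b (n + 1)) := by
  rw [avg, avg, QuotientGroup.mk_prod, QuotientGroup.mk_prod]
  refine Finset.prod_congr rfl fun x _ => ?_
  rw [QuotientGroup.mk_pow, QuotientGroup.mk_pow]
  exact mk_pow_eq (smul_mem_fixG hH hb _) (teich_succ _ _).symm

theorem avg_zero {β : A} (hβ : β ∈ fixG A H) (e : ℕ) (he : e * Fintype.card (G ⧸ H) ≡ 1 [MOD ℓ])
    (h1 : ∀ h ∈ H, γ h ≡ 1 [MOD ℓ]) (hmul : ∀ g h, γ (g * h) ≡ γ g * γ h [MOD ℓ])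
    (hg : ∀ g : G, (QuotientGroup.mk (g • β) : A ⧸ powG A H ℓ) = QuotientGroup.mk (β ^ γ g)) :
    (QuotientGroup.mk β : A ⧸ powG A H ℓ) = QuotientGroup.mk (avg ℓ H γ (β ^ e) 0) := by
  have e1 : ∀ x : G ⧸ H, (QuotientGroup.mk ((Quotient.out x • β ^ e) ^
      (γ (Quotient.out x)⁻¹ ^ ℓ ^ 0)) : A ⧸ powG A H ℓ) = QuotientGroup.mk β ^ e := by
    intro x
    rw [smul_pow', pow_zero, pow_one, QuotientGroup.mk_pow, QuotientGroup.mk_pow, hg,
      QuotientGroup.mk_pow, ← pow_mul, ← pow_mul]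
    apply mk_pow_eq hβ
    have h2 := hmul (Quotient.out x) (Quotient.out x)⁻¹
    rw [mul_inv_cancel] at h2
    have h3 := h2.symm.trans (h1 1 H.one_mem)
    have h4 := h3.mul_left e
    rw [mul_one] at h4
    have h5 : γ (Quotient.out x) * (e * γ (Quotient.out x)⁻¹) =
        e * (γ (Quotient.out x) * γ (Quotient.out x)⁻¹) := by ring
    rw [h5]
    exact h4
  rw [avg, QuotientGroup.mk_prod, Finset.prod_congr rfl fun x _ => e1 x, Finset.prod_const,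
    Finset.card_univ, ← pow_mul, mk_pow_eq hβ he, pow_one]

end Avg

/-! ### The module -/

/-- Module TOWER. -/
theorem tower (hks : KumSurjStatement.{u} ℓ) (hidx : IndexStatement.{u} ℓ) (hdisc : DiscStatement.{u})
    (hdl : DlogStatement.{u}) : TowerStatement.{u} ℓ := by
  classical
  intro F Ω _ _ _ _ _ ζ hζ η hη χ hχ hχc
  obtain ⟨hη0, hηp, hηs⟩ := hη
  have hD := hdisc F Ω
  -- the cyclotomic exponent
  have hex : ∀ (n : ℕ) (g : Ω ≃ₐ[F] Ω), ∃ k : ℕ, g • η n = η n ^ k := by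
    intro n g
    have h1 : (g • η n) ^ ℓ ^ (n + 1) = 1 := by
      rw [← smul_pow', (hηp n).pow_eq_one, smul_one]
    exact ⟨_, ((hdl Ω (ℓ ^ (n + 1)) (η n) (hηp n)).1 _ h1).symm⟩
  choose c hc using hex
  set γ : (Ω ≃ₐ[F] Ω) → ℕ := c 0 with hγdef
  have hγ : ∀ g : Ω ≃ₐ[F] Ω, g • ζ = ζ ^ γ g := by
    intro g
    have := hc 0 g
    rwa [hη0] at this
  have hpow : ∀ i j : ℕ, ζ ^ i = ζ ^ j → i ≡ j [MOD ℓ] := by
    intro i j h
    rw [pow_eq_pow_iff_modEq, ← hζ.eq_orderOf] at h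
    exact h
  have hHn : (HZ F ζ).Normal := by
    constructor
    intro h hh g
    have h1 : h • ζ = ζ := hh
    change (g * h * g⁻¹) • ζ = ζ
    rw [mul_smul, mul_smul, hγ g⁻¹, smul_pow', h1, ← hγ g⁻¹, smul_inv_smul]
  have hγ1 : ∀ h ∈ HZ F ζ, γ h ≡ 1 [MOD ℓ] := by
    intro h hh
    apply hpow
    rw [← hγ h, pow_one]
    exact hh
  have hγm : ∀ g h, γ (g * h) ≡ γ g * γ h [MOD ℓ] := by
    intro g h
    apply hpow
    rw [← hγ, mul_smul, hγ h, smul_pow', hγ g, pow_mul]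
  -- finiteness of the quotient
  obtain ⟨ho, hfin, hcop⟩ := hidx F Ω ζ hζ ⊤ isOpen_univ
  rw [top_inf_eq] at ho hfin hcop
  rw [Subgroup.relIndex_top_right] at hcop
  have hFt : Fintype ((Ω ≃ₐ[F] Ω) ⧸ HZ F ζ) := Subgroup.fintypeQuotientOfFiniteIndex
  have hcard : Fintype.card ((Ω ≃ₐ[F] Ω) ⧸ HZ F ζ) = (HZ F ζ).index := by
    rw [Subgroup.index, Nat.card_eq_fintype_card]
  obtain ⟨e, he⟩ : ∃ e : ℕ, e * Fintype.card ((Ω ≃ₐ[F] Ω) ⧸ HZ F ζ) ≡ 1 [MOD ℓ] := by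
    rw [hcard]
    obtain ⟨e, -, he⟩ := Nat.exists_mul_mod_eq_one_of_coprime hcop (Fact.out : Nat.Prime ℓ).one_lt
    refine ⟨e, ?_⟩
    rw [mul_comm]
    unfold Nat.ModEq
    rw [he, Nat.mod_eq_of_lt (Fact.out : Nat.Prime ℓ).one_lt]
  -- Kummer theory for χ
  obtain ⟨θ, hθ⟩ := hks F Ω ζ hζ ⊤ isOpen_univ (fun g => χ ((g : HZ F ζ) : Ω ≃ₐ[F] Ω))
    (fun g h => hχ _ _) (hχc.comp_continuous (continuous_subtype_val.comp continuous_subtype_val))
  have hθ' : ∀ g ∈ HZ F ζ, g • θ = ζ ^ (χ g).val * θ := fun g hg =>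
    hθ ⟨⟨g, hg⟩, Subgroup.mem_top _⟩
  have hζ7 : ζ ^ ℓ = 1 := hζ.pow_eq_one
  set β : Ωˣ := θ ^ ℓ with hβdef
  have hβ : β ∈ fixG Ωˣ (HZ F ζ) := by
    intro g hg
    rw [hβdef, smul_pow', hθ' g hg, mul_pow, ← pow_mul, mul_comm _ ℓ, pow_mul, hζ7, one_pow, one_mul]
  -- the action of G on θ
  have hconj : ∀ g h : Ω ≃ₐ[F] Ω, χ (g * h * g⁻¹) = χ h := by
    intro g h
    have h1 := hχ g g⁻¹
    rw [mul_inv_cancel] at h1
    have h2 := hχ 1 1
    rw [mul_one, left_eq_add] at h2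
    rw [hχ, hχ, add_right_comm, ← h1, h2, zero_add]
  have hgβ : ∀ g : Ω ≃ₐ[F] Ω, (QuotientGroup.mk (g • β) : Ωˣ ⧸ powG Ωˣ (HZ F ζ) ℓ) =
      QuotientGroup.mk (β ^ γ g) := by
    intro g
    rw [eq_comm, QuotientGroup.eq]
    refine ⟨(θ ^ γ g)⁻¹ * g • θ, ?_, ?_⟩
    · intro h hh
      have h1 : g⁻¹ * h * g ∈ HZ F ζ := by
        have := hHn.conj_mem h hh g⁻¹
        rwa [inv_inv] at this
      have h2 : h • g • θ = g • ((g⁻¹ * h * g) • θ) := by
        rw [smul_smul, smul_smul]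
        congr 1
        group
      have h3 : χ (g⁻¹ * h * g) = χ h := by
        have := hconj g⁻¹ h
        rwa [inv_inv] at this
      rw [smul_mul', smul_inv', smul_pow', hθ' h hh, h2, hθ' _ h1, h3, smul_mul', smul_pow', hγ g,
        mul_pow, mul_inv, ← pow_mul, ← pow_mul, mul_comm (γ g)]
      rw [mul_mul_mul_comm, inv_mul_cancel, one_mul]
    · change ((θ ^ γ g)⁻¹ * g • θ) ^ ℓ = _
      rw [mul_pow, inv_pow, ← pow_mul, mul_comm (γ g) ℓ, pow_mul, ← smul_pow']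
  set B : ℕ → Ωˣ := avg ℓ (HZ F ζ) γ (β ^ e) with hBdef
  have hβe : β ^ e ∈ fixG Ωˣ (HZ F ζ) := Subgroup.pow_mem _ hβ e
  have hB : ∀ n, B n ∈ fixG Ωˣ (HZ F ζ) := fun n => avg_mem hHn hβe n
  have hB0 : ∃ v ∈ fixG Ωˣ (HZ F ζ), B 0 = β * v ^ ℓ :=
    exists_of_mk_eq (avg_zero hβ e he hγ1 hγm hgβ)
  have hBs : ∀ n, ∃ v ∈ fixG Ωˣ (HZ F ζ), B (n + 1) = B n * v ^ ℓ ^ (n + 1) := fun n =>
    exists_of_mk_eq (avg_succ hHn hβe n)
  have hBσ : ∀ n σ, ∃ v ∈ fixG Ωˣ (HZ F ζ), σ • B n = B n ^ (γ σ ^ ℓ ^ n) * v ^ ℓ ^ (n + 1) := fun n σ =>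
    exists_of_mk_eq (avg_smul hHn hβe hγ1 hγm n σ).symm
  -- the roots
  have hne : NeZero ((ℓ : ℕ) : Ω) := (IsPrimitiveRoot.coe_units_iff.2 hζ).neZero'
  have hroot : ∀ n, ∃ t : Ωˣ, t ^ ℓ ^ (n + 1) = B n := by
    intro n
    have hne' : NeZero ((ℓ ^ (n + 1) : ℕ) : Ω) := by
      constructor
      push_cast
      exact pow_ne_zero _ (by exact_mod_cast hne.out)
    obtain ⟨z, hz⟩ := IsSepClosed.exists_pow_nat_eq (B n : Ω) (ℓ ^ (n + 1))
    have hz0 : z ≠ 0 := by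
      rintro rfl
      rw [zero_pow (pow_ne_zero _ (Fact.out : Nat.Prime ℓ).ne_zero)] at hz
      exact (B n).ne_zero hz.symm
    refine ⟨Units.mk0 z hz0, Units.ext ?_⟩
    rw [Units.val_pow_eq_pow_val, Units.val_mk0, hz]
  choose t ht using hroot
  -- the stabilizers
  have hNζ : ∀ n g, g • η n = η n → g ∈ HZ F ζ := by
    intro n
    induction n with
    | zero => intro g hg; rwa [hη0] at hg
    | succ n ih =>
      intro g hg
      apply ih
      rw [← hηs n, smul_pow', hg]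
  have hηζ : ∀ n, η n ^ ℓ ^ n = ζ := by
    intro n
    induction n with
    | zero => rw [hη0, pow_zero, pow_one]
    | succ n ih => rw [pow_succ', pow_mul, hηs n, ih]
  -- definition of the characters
  set ψ : (n : ℕ) → (Ω ≃ₐ[F] Ω) → ZMod (ℓ ^ (n + 1)) := fun n g =>
    if g • η n = η n then dlog (ℓ ^ (n + 1)) (η n) ((g • t n) * (t n)⁻¹) else 0 with hψdef
  have hψ : ∀ n g, g • η n = η n → g • t n = η n ^ (ψ n g).val * t n := by
    intro n g hg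
    have h1 : ((g • t n) * (t n)⁻¹) ^ ℓ ^ (n + 1) = 1 := by
      rw [mul_pow, inv_pow, ← smul_pow', ht n, hB n g (hNζ n g hg), mul_inv_cancel]
    have h2 := (hdl Ω (ℓ ^ (n + 1)) (η n) (hηp n)).1 _ h1
    have h3 : ψ n g = dlog (ℓ ^ (n + 1)) (η n) ((g • t n) * (t n)⁻¹) := if_pos hg
    rw [h3, h2, inv_mul_cancel_right]
  have huniq : ∀ n (i j : ℕ), η n ^ i = η n ^ j → (i : ZMod (ℓ ^ (n + 1))) = j := by
    intro n i j h
    rw [pow_eq_pow_iff_modEq, ← (hηp n).eq_orderOf] at h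
    exact (ZMod.natCast_eq_natCast_iff _ _ _).2 h
  have hψu : ∀ n g (k : ℕ), g • η n = η n → g • t n = η n ^ k * t n → ψ n g = k := by
    intro n g k hg h
    rw [hψ n g hg] at h
    have h1 := huniq n _ _ (mul_right_cancel h)
    rwa [ZMod.natCast_val, ZMod.cast_id] at h1
  -- elements whose power is one are fixed
  have hfix : ∀ n (g : Ω ≃ₐ[F] Ω) (x : Ωˣ), g • η n = η n → x ^ ℓ ^ (n + 1) = 1 → g • x = x := by
    intro n g x hg hx
    have h1 := (hdl Ω (ℓ ^ (n + 1)) (η n) (hηp n)).1 x hx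
    rw [← h1, smul_pow', hg]
  have hlc : ∀ a : Ωˣ, IsLocallyConstant (fun g : Ω ≃ₐ[F] Ω => g • a) := by
    intro a
    rw [IsLocallyConstant.iff_exists_open]
    intro g0
    refine ⟨(fun g => g0⁻¹ * g) ⁻¹' {g : Ω ≃ₐ[F] Ω | g • a = a}, ?_, ?_, ?_⟩
    · exact (hD a).preimage (continuous_const.mul continuous_id)
    · change (g0⁻¹ * g0) • a = a
      rw [inv_mul_cancel, one_smul]
    · intro g hg
      have h1 : (g0⁻¹ * g) • a = a := hg
      rw [mul_smul, inv_smul_eq_iff] at h1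
      exact h1
  refine ⟨ψ, fun n => ⟨?_, ?_, ?_, ?_⟩, ?_, ?_, ?_⟩
  · -- normal
    constructor
    intro h hh g
    have h1 : h • η n = η n := hh
    change (g * h * g⁻¹) • η n = η n
    rw [mul_smul, mul_smul, hc n g⁻¹, smul_pow', h1, ← hc n g⁻¹, smul_inv_smul]
  · exact hD (η n)
  · intro g hg h hh
    have hg' : g • η n = η n := hg
    have hh' : h • η n = η n := hh
    have h1 : (g * h) • η n = η n := by rw [mul_smul, hh', hg']
    rw [hψu n (g * h) ((ψ n g).val + (ψ n h).val) h1, Nat.cast_add, ZMod.natCast_val, ZMod.natCast_val,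
      ZMod.cast_id, ZMod.cast_id]
    rw [mul_smul, hψ n h hh', smul_mul', smul_pow', hg', hψ n g hg', pow_add (η n)]
    exact aux1 _ _ _
  · have h1 : IsLocallyConstant (fun g : Ω ≃ₐ[F] Ω => (g • η n, g • t n)) := (hlc _).prodMk (hlc _)
    exact h1.comp fun p : Ωˣ × Ωˣ => if p.1 = η n then dlog (ℓ ^ (n + 1)) (η n) (p.2 * (t n)⁻¹) else 0
  · -- compatibility
    intro n g hg
    have hg' : g • η n = η n := by rw [← hηs n, smul_pow', hg]
    obtain ⟨v, hv, e1⟩ := hBs n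
    have e2 : ((t (n + 1)) ^ ℓ * (t n)⁻¹ * v⁻¹) ^ ℓ ^ (n + 1) = 1 := by
      rw [mul_pow, mul_pow, ← pow_mul, ← pow_succ', ht (n + 1), inv_pow, inv_pow, ht n, e1]
      exact aux2 _ _
    have e3 := hfix n g _ hg' e2
    rw [smul_mul', smul_mul', smul_inv', smul_inv', hv g (hNζ n g hg'), mul_right_cancel_iff, smul_pow',
      hψ (n + 1) g hg, mul_pow, ← pow_mul, mul_comm _ ℓ, pow_mul, hηs] at e3
    have e4 : g • t n = η n ^ (ψ (n + 1) g).val * t n := by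
      have e5 := aux3 e3
      rw [mul_right_comm, mul_comm (η n ^ _ * t n)] at e5
      exact (mul_left_cancel e5).symm
    rw [hψu n g _ hg' e4, ZMod.natCast_val, ZMod.castHom_apply]
  · -- conjugation
    intro n σ
    refine ⟨c n σ * γ σ⁻¹ ^ ℓ ^ n, ?_, ?_⟩
    · have h1 : c n σ ≡ γ σ [MOD ℓ] := by
        apply hpow
        rw [← hγ σ, ← hηζ n, smul_pow', hc n σ, ← pow_mul, ← pow_mul, mul_comm]
      have h2 := h1.mul (fermat (γ σ⁻¹) n)
      have h3 := (h2.trans (hγm σ σ⁻¹).symm)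
      rw [mul_inv_cancel] at h3
      have h4 : c n σ * γ σ⁻¹ ^ ℓ ^ n % ℓ = 1 % ℓ := h3.trans (hγ1 1 (HZ F ζ).one_mem)
      rw [h4, Nat.mod_eq_of_lt (Fact.out : Nat.Prime ℓ).one_lt]
    · intro h hh
      obtain ⟨v, hv, e1⟩ := hBσ n σ⁻¹
      have e2 : ((σ⁻¹ • t n) * ((t n) ^ (γ σ⁻¹ ^ ℓ ^ n))⁻¹ * v⁻¹) ^ ℓ ^ (n + 1) = 1 := by
        rw [mul_pow, mul_pow, ← smul_pow', ht n, e1, inv_pow, inv_pow, ← pow_mul (t n),
          mul_comm _ (ℓ ^ (n + 1)), pow_mul (t n), ht n]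
        exact aux2 _ _
      have e3 := hfix n h _ hh e2
      rw [smul_mul', smul_mul', smul_inv', smul_inv', hv h (hNζ n h hh), mul_right_cancel_iff, smul_pow',
        hψ n h hh, mul_pow] at e3
      have e4 := aux3 e3
      rw [← mul_assoc] at e4
      have e5 := mul_right_cancel e4
      have e6 : (σ * h * σ⁻¹) • t n = η n ^ (c n σ * γ σ⁻¹ ^ ℓ ^ n * (ψ n h).val) * t n := by
        rw [mul_smul, mul_smul, e5, smul_mul', smul_inv_smul, smul_pow', smul_pow', hc n σ, ← pow_mul, ← pow_mul,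
          mul_comm (t n)]
        congr 2
        ring
      have e7 : (σ * h * σ⁻¹) • η n = η n := by
        rw [mul_smul, mul_smul, hc n σ⁻¹, smul_pow', hh, ← hc n σ⁻¹, smul_inv_smul]
      rw [hψu n _ _ e7 e6, Nat.cast_mul, ZMod.natCast_val, ZMod.cast_id]
  · intro g hg
    obtain ⟨v, hv, e1⟩ := hB0
    have hg0 : g • η 0 = η 0 := by rw [hη0, hg]
    have e2 : (t 0 * θ⁻¹ * v⁻¹) ^ ℓ ^ (0 + 1) = 1 := by
      rw [mul_pow, mul_pow, ht 0, e1, inv_pow, inv_pow, zero_add, pow_one]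
      exact aux2 _ _
    have e3 := hfix 0 g _ hg0 e2
    rw [smul_mul', smul_mul', smul_inv', smul_inv', hv g hg, mul_right_cancel_iff, hθ' g hg] at e3
    have e4 := aux3 e3
    rw [← mul_assoc] at e4
    have e5 := mul_right_cancel e4
    have e6 : g • t 0 = η 0 ^ (χ g).val * t 0 := by rw [e5, hη0, mul_comm]
    rw [hψu 0 g _ hg0 e6, ZMod.val_natCast, zero_add, pow_one]
    exact Nat.mod_eq_of_lt (ZMod.val_lt _)

end BRP.H62
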